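import Mathlib

/-!
# A group with finite double centralizers that is not perfectly supportable

The group consists of all permutations of `ℕ × Fin 3` that preserve all but finitely many of the
blocks `{k} × Fin 3`.
-/

set_option autoImplicit false

namespace Pool.Agent.Results.MP_5e2b9f_al.BlockGroup

universe u v

/-- the centralizer of a subset -/
def cent {S : Type u} [Mul S] (T : Set S) : Set S := {g | ∀ f ∈ T, f * g = g * f}

/-- `C(C(F))` is finite for every finite subset `F` -/
def FiniteDoubleCentralizers (S : Type u) [Mul S] : Prop :=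
  ∀ F : Set S, F.Finite → (cent (cent F)).Finite

/-- support maps -/
structure IsSupportMap {S : Type u} {X : Type v} [Mul S] (supp : S → Set X) : Prop where
  mul : ∀ f g : S, supp (f * g) ⊆ supp f ∪ supp g
  comm : ∀ f g : S, supp f ∩ supp g = ∅ → f * g = g * f

/-- the union of all supports -/
def ground {S : Type u} {X : Type v} (supp : S → Set X) : Set X := ⋃ f, supp f

/-- the elements with support in `A` -/
def sub {S : Type u} {X : Type v} (supp : S → Set X) (A : Set X) : Set S := {f | supp f ⊆ A}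

/-- supp-perfect pairs -/
structure SuppPerfect {S : Type u} {X : Type v} [Mul S] (supp : S → Set X) : Prop where
  isSupportMap : IsSupportMap supp
  finite_supp : ∀ f : S, (supp f).Finite
  finite_sub : ∀ F : Set X, F ⊆ ground supp → F.Finite → (sub supp F).Finite
  sub_eq : ∀ F : Set X, F ⊆ ground supp → F.Finite →
    sub supp F = cent (sub supp (ground supp \ F))

/-- `S` is perfectly supportable, with a support map to the subsets of a set in the universe `v` -/
def PerfectlySupportable (S : Type u) [Mul S] : Prop :=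
  ∃ (X : Type v) (supp : S → Set X), SuppPerfect supp

/-- the underlying set -/
abbrev Om : Type := ℕ × Fin 3

/-- the group of permutations of `ℕ × Fin 3` preserving all but finitely many of the blocks
`{k} × Fin 3` -/
def BG : Subgroup (Equiv.Perm Om) where
  carrier := {f | ∃ K : ℕ, ∀ x : Om, K ≤ x.1 → (f x).1 = x.1 ∧ (f⁻¹ x).1 = x.1}
  mul_mem' := by
    rintro f g ⟨K, hK⟩ ⟨K', hK'⟩
    refine ⟨max K K', fun x hx => ?_⟩
    have h1 : K ≤ x.1 := le_trans (le_max_left _ _) hx
    have h2 : K' ≤ x.1 := le_trans (le_max_right _ _) hx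
    constructor
    · rw [Equiv.Perm.mul_apply, (hK (g x) ?_).1, (hK' x h2).1]
      rw [(hK' x h2).1]
      exact h1
    · rw [mul_inv_rev, Equiv.Perm.mul_apply, (hK' (f⁻¹ x) ?_).2, (hK x h1).2]
      rw [(hK x h1).2]
      exact h2
  one_mem' := ⟨0, fun x _ => ⟨rfl, rfl⟩⟩
  inv_mem' := by
    rintro f ⟨K, hK⟩
    exact ⟨K, fun x hx => ⟨(hK x hx).2, by rw [inv_inv]; exact (hK x hx).1⟩⟩

/-- the permutation exchanging two blocks -/
def sw (k l : ℕ) : Equiv.Perm Om := Equiv.prodCongr (Equiv.swap k l) (Equiv.refl _)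

theorem sw_apply (k l : ℕ) (x : Om) : sw k l x = (Equiv.swap k l x.1, x.2) := rfl

theorem sw_inv (k l : ℕ) : (sw k l)⁻¹ = sw k l := by
  rw [inv_eq_iff_mul_eq_one]
  ext x
  · simp [sw_apply]
  · simp [sw_apply]

theorem sw_mem (k l : ℕ) : sw k l ∈ BG := by
  refine ⟨max k l + 1, fun x hx => ?_⟩
  have h1 : x.1 ≠ k := by have := le_max_left k l; omega
  have h2 : x.1 ≠ l := by have := le_max_right k l; omega
  rw [sw_inv, sw_apply, Equiv.swap_apply_of_ne_of_ne h1 h2]
  exact ⟨rfl, rfl⟩

theorem finite_double : FiniteDoubleCentralizers BG := by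
  classical
  intro F hF
  have hFf : Finite F := hF.to_subtype
  -- a uniform bound `K` for the elements of `F`
  choose κ hκ using fun f : F => f.1.2
  obtain ⟨K, hK⟩ : ∃ K : ℕ, ∀ f : F, κ f ≤ K := by
    obtain ⟨K, hK⟩ := (Set.finite_range κ).bddAbove
    exact ⟨K, fun f => hK ⟨f, rfl⟩⟩
  have hpres : ∀ f ∈ F, ∀ x : Om, K ≤ x.1 →
      ((f : Equiv.Perm Om) x).1 = x.1 ∧ ((f : Equiv.Perm Om)⁻¹ x).1 = x.1 := fun f hf x hx =>
    hκ ⟨f, hf⟩ x ((hK ⟨f, hf⟩).trans hx)
  -- the types of blocks
  let ty : ℕ → (F → Fin 3 → Fin 3) := fun k f i => ((f.1 : Equiv.Perm Om) (k, i)).2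
  have hsw : ∀ k l : ℕ, K ≤ k → K ≤ l → ty k = ty l → (⟨sw k l, sw_mem k l⟩ : BG) ∈ cent F := by
    intro k l hk hl hty f hf
    apply Subtype.ext
    apply Equiv.ext
    intro x
    change (f : Equiv.Perm Om) (sw k l x) = sw k l ((f : Equiv.Perm Om) x)
    rw [sw_apply, sw_apply]
    by_cases hxk : x.1 = k
    · have h1 : x = (k, x.2) := by rw [← hxk]
      rw [hxk, Equiv.swap_apply_left, (hpres f hf x (hxk ▸ hk)).1, hxk, Equiv.swap_apply_left]
      have h2 := congrFun (congrFun hty ⟨f, hf⟩) x.2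
      have h3 : ((f : Equiv.Perm Om) (k, x.2)).2 = ((f : Equiv.Perm Om) (l, x.2)).2 := h2
      have h4 := (hpres f hf (l, x.2) hl).1
      rw [← h1] at h3
      rw [h3]
      exact Prod.ext h4 rfl
    · by_cases hxl : x.1 = l
      · have h1 : x = (l, x.2) := by rw [← hxl]
        rw [hxl, Equiv.swap_apply_right, (hpres f hf x (hxl ▸ hl)).1, hxl, Equiv.swap_apply_right]
        have h2 := congrFun (congrFun hty ⟨f, hf⟩) x.2
        have h3 : ((f : Equiv.Perm Om) (k, x.2)).2 = ((f : Equiv.Perm Om) (l, x.2)).2 := h2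
        have h4 := (hpres f hf (k, x.2) hk).1
        rw [← h1] at h3
        rw [← h3]
        exact Prod.ext h4 rfl
      · rw [Equiv.swap_apply_of_ne_of_ne hxk hxl]
        have h5 : ∀ m : ℕ, K ≤ m → x.1 ≠ m → ((f : Equiv.Perm Om) x).1 ≠ m := by
          intro m hm hxm h
          have h6 := (hpres f hf ((f : Equiv.Perm Om) x) (h ▸ hm)).2
          rw [show (f : Equiv.Perm Om)⁻¹ ((f : Equiv.Perm Om) x) = x from
            Equiv.symm_apply_apply _ _, h] at h6
          exact hxm h6
        rw [Equiv.swap_apply_of_ne_of_ne (h5 k hk hxk) (h5 l hl hxl)]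
  -- a bound `M` such that every block beyond `M` has the type of two distinct blocks below `M`
  have hM1 : ∀ t : F → Fin 3 → Fin 3, ∃ M : ℕ, ∀ k, M ≤ k → K ≤ k → ty k = t →
      ∃ k' k'' : ℕ, K ≤ k' ∧ K ≤ k'' ∧ k' < M ∧ k'' < M ∧ k' ≠ k'' ∧ ty k' = t ∧ ty k'' = t := by
    intro t
    by_cases h2 : ∃ k' k'' : ℕ, K ≤ k' ∧ K ≤ k'' ∧ k' ≠ k'' ∧ ty k' = t ∧ ty k'' = t
    · obtain ⟨k', k'', h1, h2, h3, h4, h5⟩ := h2
      exact ⟨max k' k'' + 1, fun k _ _ _ => ⟨k', k'', h1, h2,
        Nat.lt_succ_of_le (le_max_left _ _), Nat.lt_succ_of_le (le_max_right _ _), h3, h4, h5⟩⟩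
    · by_cases h1 : ∃ k' : ℕ, K ≤ k' ∧ ty k' = t
      · obtain ⟨k', h3, h4⟩ := h1
        refine ⟨k' + 1, fun k hk hKk hkt => ?_⟩
        exact absurd ⟨k', k, h3, hKk, by omega, h4, hkt⟩ h2
      · exact ⟨0, fun k _ hKk hkt => absurd ⟨k, hKk, hkt⟩ h1⟩
  choose μ hμ using hM1
  obtain ⟨M, hM⟩ : ∃ M : ℕ, ∀ t, μ t ≤ M := by
    obtain ⟨M, hM⟩ := (Set.finite_range μ).bddAbove
    exact ⟨M, fun t => hM ⟨t, rfl⟩⟩
  set N := max K M with hN
  have hNpair : ∀ k, N ≤ k → ∃ k' k'' : ℕ, K ≤ k' ∧ K ≤ k'' ∧ k' < N ∧ k'' < N ∧ k' ≠ k'' ∧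
      ty k' = ty k ∧ ty k'' = ty k := by
    intro k hk
    have h1 : M ≤ k := (le_max_right _ _).trans hk
    have h2 : K ≤ k := (le_max_left _ _).trans hk
    have hMN : M ≤ N := le_max_right _ _
    obtain ⟨k', k'', h3, h4, h5, h6, h7, h8, h9⟩ := hμ (ty k) k ((hM _).trans h1) h2 rfl
    exact ⟨k', k'', h3, h4, (h5.trans_le (hM _)).trans_le hMN,
      (h6.trans_le (hM _)).trans_le hMN, h7, h8, h9⟩
  -- elements of the double centralizer
  have hcomm : ∀ g ∈ cent (cent F), ∀ k l : ℕ, K ≤ k → K ≤ l → ty k = ty l → ∀ x : Om,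
      (g : Equiv.Perm Om) (sw k l x) = sw k l ((g : Equiv.Perm Om) x) := by
    intro g hg k l hk hl hty x
    have h1 := congrArg Subtype.val (hg _ (hsw k l hk hl hty))
    exact (DFunLike.congr_fun h1 x).symm
  have hval : ∀ g ∈ cent (cent F), ∀ k, N ≤ k → ∃ k' < N, ∀ i : Fin 3,
      ((g : Equiv.Perm Om) (k, i)) = (k, ((g : Equiv.Perm Om) (k', i)).2) := by
    intro g hg k hk
    obtain ⟨k', k'', h1, h2, h3, h4, h5, h6, h7⟩ := hNpair k hk
    have hKk : K ≤ k := (le_max_left _ _).trans hk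
    refine ⟨k', h3, fun i => ?_⟩
    have hkk' : k ≠ k' := by omega
    have hkk'' : k ≠ k'' := by omega
    have e1 := hcomm g hg k' k'' h1 h2 (h6.trans h7.symm) (k, i)
    have e2 := hcomm g hg k k' hKk h1 h6.symm (k, i)
    rw [sw_apply, Equiv.swap_apply_of_ne_of_ne hkk' hkk'', sw_apply] at e1
    rw [sw_apply, Equiv.swap_apply_left, sw_apply] at e2
    set y := (g : Equiv.Perm Om) (k, i) with hy
    have hyk : y.1 = k := by
      have e3 := congrArg Prod.fst e1
      simp only at e3
      have h8 : y.1 ≠ k' := by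
        intro h
        rw [h, Equiv.swap_apply_left] at e3
        exact h5 e3
      by_contra h9
      rw [Equiv.swap_apply_of_ne_of_ne h9 h8] at e2
      have h10 : (g : Equiv.Perm Om) (k', i) = (g : Equiv.Perm Om) (k, i) := by
        rw [e2, ← hy]
      have h11 := congrArg Prod.fst ((g : Equiv.Perm Om).injective h10)
      exact hkk' h11.symm
    rw [e2]
    exact Prod.ext hyk rfl
  have hinv : ∀ g ∈ cent (cent F), g⁻¹ ∈ cent (cent F) := by
    intro g hg f hf
    exact ((show Commute f g from hg f hf).inv_right).eq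
  have hlow : ∀ g ∈ cent (cent F), ∀ x : Om, x.1 < N → ((g : Equiv.Perm Om) x).1 < N := by
    intro g hg x hx
    by_contra hcon
    push Not at hcon
    obtain ⟨k', -, h2⟩ := hval g⁻¹ (hinv g hg) _ hcon
    have h3 := congrArg Prod.fst (h2 ((g : Equiv.Perm Om) x).2)
    have h4 : ((g⁻¹ : BG) : Equiv.Perm Om) ((g : Equiv.Perm Om) x) = x :=
      Equiv.symm_apply_apply _ _
    have h5 : ((g⁻¹ : BG) : Equiv.Perm Om) (((g : Equiv.Perm Om) x).1, ((g : Equiv.Perm Om) x).2)
        = x := h4
    rw [h5] at h3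
    simp only at h3
    omega
  -- conclusion
  let Φ : BG → (Fin N × Fin 3 → ℕ × Fin 3) := fun g a => (g : Equiv.Perm Om) (a.1.1, a.2)
  have hΦ : Set.InjOn Φ (cent (cent F)) := by
    intro g hg g' hg' he
    have hlo : ∀ k < N, ∀ i, (g : Equiv.Perm Om) (k, i) = (g' : Equiv.Perm Om) (k, i) := by
      intro k hk i
      exact congrFun he (⟨k, hk⟩, i)
    apply Subtype.ext
    apply Equiv.ext
    rintro ⟨k, i⟩
    rcases lt_or_ge k N with hk | hk
    · exact hlo k hk i
    · obtain ⟨k', k'', h1, h2, h3, h4, h5, h6, h7⟩ := hNpair k hk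
      have hKk : K ≤ k := (le_max_left _ _).trans hk
      have e2 := hcomm g hg k k' hKk h1 h6.symm (k, i)
      have e3 := hcomm g' hg' k k' hKk h1 h6.symm (k, i)
      rw [show sw k k' (k, i) = (k', i) by rw [sw_apply, Equiv.swap_apply_left]] at e2 e3
      rw [hlo k' h3 i, e3] at e2
      exact ((sw k k').injective e2).symm
  refine Set.Finite.of_finite_image ?_ hΦ
  refine Set.Finite.subset (s := Set.pi Set.univ (fun _ : Fin N × Fin 3 =>
    {y : ℕ × Fin 3 | y.1 < N})) ?_ ?_
  · apply Set.Finite.pi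
    intro _
    have : {y : ℕ × Fin 3 | y.1 < N} = (Set.Iio N) ×ˢ (Set.univ : Set (Fin 3)) := by
      ext y; simp
    rw [this]
    exact (Set.finite_Iio N).prod Set.finite_univ
  · rintro _ ⟨g, hg, rfl⟩ a -
    exact hlow g hg _ a.1.2

/-- the embedding of the product of the symmetric groups of the blocks -/
def emb : (ℕ → Equiv.Perm (Fin 3)) →* BG where
  toFun s := ⟨Equiv.prodCongrRight s, 0, fun _ _ => ⟨rfl, rfl⟩⟩
  map_one' := rfl
  map_mul' _ _ := rfl

theorem emb_apply (s : ℕ → Equiv.Perm (Fin 3)) (x : Om) :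
    ((emb s : BG) : Equiv.Perm Om) x = (x.1, s x.1 x.2) := rfl

instance : Infinite BG := by
  apply Infinite.of_injective (fun n : ℕ => emb (Pi.mulSingle n (Equiv.swap 0 1)))
  intro m n h
  by_contra hne
  have h1 := congrArg (fun g : BG => ((g : Equiv.Perm Om) (m, 0)).2) h
  simp only [emb_apply, Pi.mulSingle_eq_same, Pi.mulSingle_eq_of_ne hne] at h1
  exact absurd h1 (by decide)

/-- a permutation commuting with the symmetric group of a block fixes the block pointwise -/
theorem fixes_block (g : BG) (k : ℕ)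
    (h : ∀ σ : Equiv.Perm (Fin 3), g * emb (Pi.mulSingle k σ) = emb (Pi.mulSingle k σ) * g)
    (i : Fin 3) : (g : Equiv.Perm Om) (k, i) = (k, i) := by
  classical
  have h1 : ∀ σ : Equiv.Perm (Fin 3), (g : Equiv.Perm Om) (k, σ i)
      = (((g : Equiv.Perm Om) (k, i)).1, (Pi.mulSingle k σ : ℕ → Equiv.Perm (Fin 3))
          ((g : Equiv.Perm Om) (k, i)).1 ((g : Equiv.Perm Om) (k, i)).2) := by
    intro σ
    have h2 := DFunLike.congr_fun (congrArg Subtype.val (h σ)) (k, i)
    have h3 : (g : Equiv.Perm Om) (((emb (Pi.mulSingle k σ) : BG) : Equiv.Perm Om) (k, i))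
      = ((emb (Pi.mulSingle k σ) : BG) : Equiv.Perm Om) ((g : Equiv.Perm Om) (k, i)) := h2
    rw [emb_apply, emb_apply] at h3
    simp only [Pi.mulSingle_eq_same] at h3
    exact h3
  set y := (g : Equiv.Perm Om) (k, i) with hy
  have hyk : y.1 = k := by
    by_contra hne
    obtain ⟨j, hj⟩ : ∃ j : Fin 3, j ≠ i := exists_ne i
    have h2 := h1 (Equiv.swap i j)
    rw [Pi.mulSingle_eq_of_ne hne, Equiv.swap_apply_left] at h2
    have h3 : (g : Equiv.Perm Om) (k, j) = (g : Equiv.Perm Om) (k, i) := by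
      rw [h2, ← hy]; rfl
    exact hj (congrArg Prod.snd ((g : Equiv.Perm Om).injective h3))
  have hyi : y.2 = i := by
    by_contra hne
    obtain ⟨j, hj1, hj2⟩ : ∃ j : Fin 3, j ≠ i ∧ j ≠ y.2 := by
      have : ∀ a b : Fin 3, ∃ j : Fin 3, j ≠ a ∧ j ≠ b := by decide
      exact this i y.2
    have h2 := h1 (Equiv.swap y.2 j)
    rw [hyk, Pi.mulSingle_eq_same, Equiv.swap_apply_left,
      Equiv.swap_apply_of_ne_of_ne (Ne.symm hne) hj1.symm, ← hy] at h2
    exact hj2 (congrArg Prod.snd h2).symm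
  exact Prod.ext hyk hyi

theorem not_supp_perfect {X : Type v} (supp : BG → Set X) : ¬ SuppPerfect supp := by
  classical
  intro hS
  -- a sequence of noncentral elements with pairwise disjoint supports
  obtain ⟨f, hf1, hf2⟩ := exists_seq_of_forall_finset_exists
    (fun f : BG => ∃ g : BG, f * g ≠ g * f) (fun f g : BG => supp f ∩ supp g = ∅) (by
      intro s _
      set F : Set X := ⋃ x ∈ s, supp x with hF
      have hFf : F.Finite := Set.Finite.biUnion s.finite_toSet (fun x _ => hS.finite_supp x)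
      have hFg : F ⊆ ground supp := by
        intro x hx
        obtain ⟨g, -, hg⟩ := Set.mem_iUnion₂.1 hx
        exact Set.mem_iUnion.2 ⟨g, hg⟩
      by_contra hcon
      push Not at hcon
      have h1 := hS.sub_eq F hFg hFf
      have h2 : cent (sub supp (ground supp \ F)) = Set.univ := by
        rw [Set.eq_univ_iff_forall]
        intro g h hh
        by_contra hne
        obtain ⟨x, hx, hne2⟩ := hcon h ⟨g, hne⟩
        obtain ⟨z, hz1, hz2⟩ := hne2
        exact (hh hz2).2 (Set.mem_iUnion₂.2 ⟨x, hx, hz1⟩)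
      have h3 := hS.finite_sub F hFg hFf
      rw [h1, h2] at h3
      exact Set.infinite_univ h3)
  have hdisj : ∀ m n, m ≠ n → supp (f m) ∩ supp (f n) = ∅ := by
    intro m n hmn
    rcases lt_or_gt_of_ne hmn with h | h
    · exact hf2 m n h
    · rw [Set.inter_comm]; exact hf2 n m h
  have hinj : Function.Injective f := by
    intro m n hmn
    by_contra hne
    have h1 := hdisj m n hne
    rw [← hmn, Set.inter_self] at h1
    obtain ⟨g, hg⟩ := hf1 m
    exact hg (hS.isSupportMap.comm _ _ (by rw [h1, Set.empty_inter]))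
  -- every element commutes with almost all terms of the sequence
  have hcomm : ∀ s : BG, ∃ n, ∀ i, n ≤ i → f i * s = s * f i := by
    intro s
    have h1 : {i | (supp (f i) ∩ supp s).Nonempty}.Finite := by
      have h2 : ∀ i : {i | (supp (f i) ∩ supp s).Nonempty}, ∃ x : supp s, (x : X) ∈ supp (f i) := by
        rintro ⟨i, x, hx1, hx2⟩
        exact ⟨⟨x, hx2⟩, hx1⟩
      choose φ hφ using h2
      have hφi : Function.Injective φ := by
        intro i j hij
        by_contra hne
        have h3 := hdisj i j (fun h => hne (Subtype.ext h))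
        have h4 : ((φ i : supp s) : X) ∈ supp (f i) ∩ supp (f j) := ⟨hφ i, by rw [hij]; exact hφ j⟩
        rw [h3] at h4
        exact h4
      have : Finite (supp s) := (hS.finite_supp s).to_subtype
      exact Set.finite_coe_iff.1 (Finite.of_injective φ hφi)
    obtain ⟨n, hn⟩ := h1.bddAbove
    refine ⟨n + 1, fun i hi => hS.isSupportMap.comm _ _ ?_⟩
    by_contra hne
    have := hn (Set.nonempty_iff_ne_empty.2 hne)
    omega
  -- Baire category
  let _ : TopologicalSpace (Equiv.Perm (Fin 3)) := ⊥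
  have _ : DiscreteTopology (Equiv.Perm (Fin 3)) := ⟨rfl⟩
  let Z : ℕ → Set (ℕ → Equiv.Perm (Fin 3)) := fun n => {s | ∀ i, n ≤ i → f i * emb s = emb s * f i}
  have hZc : ∀ n, IsClosed (Z n) := by
    intro n
    have h1 : Z n = ⋂ i, ⋂ (_ : n ≤ i), ⋂ x : Om, {s | (f i : Equiv.Perm Om) (x.1, s x.1 x.2)
        = (((f i : Equiv.Perm Om) x).1,
          s ((f i : Equiv.Perm Om) x).1 ((f i : Equiv.Perm Om) x).2)} := by
      ext s
      simp only [Z, Set.mem_iInter, Set.mem_ofPred_eq]
      constructor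
      · intro h i hi x
        exact DFunLike.congr_fun (congrArg Subtype.val (h i hi)) x
      · intro h i hi
        apply Subtype.ext
        apply Equiv.ext
        intro x
        exact h i hi x
    rw [h1]
    refine isClosed_iInter fun i => isClosed_iInter fun _ => isClosed_iInter fun x => ?_
    apply isClosed_eq
    · exact (continuous_of_discreteTopology (f := fun a : Equiv.Perm (Fin 3) =>
        (f i : Equiv.Perm Om) (x.1, a x.2))).comp (continuous_apply x.1)
    · exact (continuous_of_discreteTopology (f := fun a : Equiv.Perm (Fin 3) =>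
        ((((f i : Equiv.Perm Om) x).1, a ((f i : Equiv.Perm Om) x).2) : Om))).comp
        (continuous_apply _)
  have hZu : (⋃ n, Z n) = Set.univ := by
    rw [Set.eq_univ_iff_forall]
    intro s
    obtain ⟨n, hn⟩ := hcomm (emb s)
    exact Set.mem_iUnion.2 ⟨n, hn⟩
  obtain ⟨n, a, ha⟩ := nonempty_interior_of_iUnion_of_closed hZc hZu
  obtain ⟨I, U, hU1, hU2⟩ := isOpen_pi_iff.1 isOpen_interior a ha
  have haZ : a ∈ Z n := interior_subset ha
  have hfix : ∀ i, n ≤ i → ∀ k, k ∉ I → ∀ j : Fin 3, (f i : Equiv.Perm Om) (k, j) = (k, j) := by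
    intro i hi k hk j
    apply fixes_block
    intro σ
    have h1 : a * Pi.mulSingle k σ ∈ Z n := by
      apply interior_subset
      apply hU2
      intro l hl
      have hlk : l ≠ k := fun h => hk (h ▸ hl)
      rw [Pi.mul_apply, Pi.mulSingle_eq_of_ne hlk, mul_one]
      exact (hU1 l hl).2
    have h2 : Commute (f i) (emb (a * Pi.mulSingle k σ)) := h1 i hi
    have h3 : Commute (f i) (emb a) := haZ i hi
    rw [map_mul] at h2
    have h4 := h3.inv_right.mul_right h2
    rw [inv_mul_cancel_left] at h4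
    exact h4
  -- only finitely many permutations are supported on the blocks in `I`
  have hfin : {g : Equiv.Perm Om | ∀ x : Om, ¬ (x.1 ∈ I) → g x = x}.Finite := by
    have h0 : {x : Om | x.1 ∈ I} = (I : Set ℕ) ×ˢ (Set.univ : Set (Fin 3)) := by
      ext x; simp
    have h1 : Finite {x : Om // x.1 ∈ I} := by
      have h2 : {x : Om | x.1 ∈ I}.Finite := by
        rw [h0]; exact I.finite_toSet.prod Set.finite_univ
      exact h2.to_subtype
    have h3 := Finite.of_equiv _ (Equiv.Perm.subtypeEquivSubtypePerm (fun x : Om => x.1 ∈ I))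
    exact h3
  have hinf : {g : Equiv.Perm Om | ∀ x : Om, ¬ (x.1 ∈ I) → g x = x}.Infinite := by
    apply Set.infinite_of_injective_forall_mem (f := fun i : ℕ => (f (n + i) : Equiv.Perm Om))
    · intro i j hij
      have := hinj (Subtype.ext hij)
      omega
    · rintro i ⟨k, j⟩ hx
      exact hfix (n + i) (by omega) k hx j
  exact hinf hfin

/-- **There is a group with finite double centralizers that is not perfectly supportable.** -/
theorem result : ∃ (S : Type) (_ : Group S), FiniteDoubleCentralizers S ∧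
    ¬ PerfectlySupportable.{0, v} S :=
  ⟨BG, inferInstance, finite_double, fun ⟨_, supp, h⟩ => not_supp_perfect supp h⟩

end Pool.Agent.Results.MP_5e2b9f_al.BlockGroup
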